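import Pool.Agent.W307.RT.Stm
import Pool.Agent.W262.RK.Bas
import Pool.Agent.W372.RK2.CNT4

/-!
# Project RT, part CNT2: coprime pairs with given small prime factors of the forms

Adapted from `Pool.Agent.W372.RK2.CNT4`.
-/

set_option autoImplicit false
set_option linter.unusedSectionVars false

namespace Pool.Agent.W29.RT

open Finset Pool.Agent.W262.RK Pool.Agent.W307.RT
open Pool.Agent.W372.RK2 (mem_Tup' sq_pow_dvd mj mj_primes prod_gw)

variable {J : Type} [Fintype J] [DecidableEq J]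

lemma dvd_S1 {z y : ℕ} {f : J → ℤ} {j : J} {p : ℕ} (hp : p.Prime) :
    p ∣ S1 z y f j ↔ p ∈ PS z y ∧ (p : ℤ) ∣ f j ∧ ¬ (p : ℤ) ^ 2 ∣ f j := by
  unfold S1
  constructor
  · intro h
    obtain ⟨q, hq, hpq⟩ := (hp.prime.dvd_finsetProd_iff _).1 h
    rw [mem_filter] at hq
    rw [(Nat.prime_dvd_prime_iff_eq hp (mem_PS.1 hq.1).2).1 hpq]
    exact hq
  · intro h
    exact dvd_prod_of_mem _ (mem_filter.2 h)

lemma dvd_S2 {z y : ℕ} {f : J → ℤ} {j : J} {p : ℕ} (hp : p.Prime) :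
    p ∣ S2 z y f j ↔ p ∈ PS z y ∧ (p : ℤ) ^ 2 ∣ f j := by
  unfold S2
  constructor
  · intro h
    obtain ⟨q, hq, hpq⟩ := (hp.prime.dvd_finsetProd_iff _).1 h
    rw [mem_filter] at hq
    rw [(Nat.prime_dvd_prime_iff_eq hp (mem_PS.1 hq.1).2).1 hpq]
    exact hq
  · intro h
    exact dvd_prod_of_mem _ (mem_filter.2 h)

/-- the facts about the counted values -/
structure G2 (z y : ℕ) (s v u : J → ℕ) (f : J → ℤ) : Prop where
  hs : S1 z y f = s
  hv : S2 z y f = v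
  hu : ∀ j, (u j : ℤ) ∣ f j
  un : ∀ p : ℕ, p.Prime → z < p → ∀ j l, (p : ℤ) ∣ f j → (p : ℤ) ∣ f l → j = l

/-- no class three -/
def c0 : J → Fin 4 := fun _ => 0

lemma mj_eq (s v u : J → ℕ) (j : J) : mj c0 s v u j = s j * v j ^ 2 * u j := by
  unfold mj c0
  simp

variable {z y Y : ℕ} {s v u : J → ℕ} {f f' : J → ℤ} {α β : J → ℤ}

lemma G2.fs (g : G2 z y s v u f) {p : ℕ} (hp : p.Prime) {j : J} (h : p ∣ s j) :
    p ∈ PS z y ∧ (p : ℤ) ∣ f j ∧ ¬ (p : ℤ) ^ 2 ∣ f j := by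
  rw [← g.hs] at h
  exact (dvd_S1 hp).1 h

lemma G2.fv (g : G2 z y s v u f) {p : ℕ} (hp : p.Prime) {j : J} (h : p ∣ v j) :
    p ∈ PS z y ∧ (p : ℤ) ^ 2 ∣ f j := by
  rw [← g.hv] at h
  exact (dvd_S2 hp).1 h

lemma G2.fu (g : G2 z y s v u f) (hu : u ∈ Tup J y Y) {p : ℕ} (hp : p.Prime) {j : J}
    (h : p ∣ u j) : y < p ∧ (p : ℤ) ∣ f j :=
  ⟨(dv_prime ((mem_Tup'.1 hu).1 j) hp h).1, (Int.natCast_dvd_natCast.2 h).trans (g.hu j)⟩

lemma G2.fmj (g : G2 z y s v u f) (hu : u ∈ Tup J y Y) (hzy : z < y) {p : ℕ}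
    (hp : p.Prime) {j : J} (h : p ∣ mj c0 s v u j) : z < p ∧ (p : ℤ) ∣ f j := by
  rw [mj_eq] at h
  rcases hp.dvd_mul.1 h with h | h
  · rcases hp.dvd_mul.1 h with h | h
    · exact ⟨(mem_PS.1 (g.fs hp h).1).1.1, (g.fs hp h).2.1⟩
    · have h' := g.fv hp (hp.dvd_of_dvd_pow h)
      exact ⟨(mem_PS.1 h'.1).1.1, (dvd_pow_self (p : ℤ) two_ne_zero).trans h'.2⟩
  · have h' := g.fu hu hp h
    exact ⟨hzy.trans h'.1, h'.2⟩

lemma al_coprime (hα : ∀ p : ℕ, p.Prime → z < p → ∀ j, ¬ (p : ℤ) ∣ α j) {d : ℕ} (j : J)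
    (hd : ∀ p : ℕ, p.Prime → p ∣ d → z < p) : IsCoprime (d : ℤ) (α j) := by
  rw [Int.isCoprime_iff_gcd_eq_one, Int.gcd_comm, Int.gcd_eq_natAbs, Int.natAbs_natCast]
  by_contra h
  obtain ⟨p, hp, hpd⟩ := Nat.exists_prime_and_dvd h
  have h1 := (Nat.dvd_gcd_iff.1 hpd).2
  have h2 := (Nat.dvd_gcd_iff.1 hpd).1
  exact hα p hp (hd p hp h1) j (Int.natCast_dvd.2 h2)

/-- two counted `t` are congruent -/
lemma cong (hα : ∀ p : ℕ, p.Prime → z < p → ∀ j, ¬ (p : ℤ) ∣ α j) (hzy : z < y)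
    (hs : s ∈ Tup J z y) (hv : v ∈ Tup J z y) (hu : u ∈ Tup J y Y) {t t' : ℤ}
    (g : G2 z y s v u f) (g' : G2 z y s v u f') (hf : ∀ j, f j - f' j = α j * (t - t')) :
    ((∏ j, mj c0 s v u j : ℕ) : ℤ) ∣ t - t' := by
  have hs' := (mem_Tup'.1 hs).1
  have hv' := (mem_Tup'.1 hv).1
  have hu' := (mem_Tup'.1 hu).1
  rw [Nat.cast_prod]
  apply Finset.prod_dvd_of_coprime
  · intro j _ l _ hjl
    rw [Function.onFun, Nat.isCoprime_iff_coprime]
    apply Nat.coprime_of_dvd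
    intro p hp hpj hpl
    have h1 := g.fmj hu hzy hp hpj
    have h2 := g.fmj hu hzy hp hpl
    exact hjl (g.un p hp h1.1 j l h1.2 h2.2)
  intro j _
  have hdiv : ∀ d : ℕ, (∀ p : ℕ, p.Prime → p ∣ d → z < p) →
      (d : ℤ) ∣ f j - f' j → (d : ℤ) ∣ t - t' := by
    intro d hd h
    rw [hf] at h
    exact (al_coprime hα j hd).dvd_of_dvd_mul_left h
  have hsz : ∀ p : ℕ, p.Prime → p ∣ s j → z < p := fun p hp h => (dv_prime (hs' j) hp h).1
  have hvz : ∀ p : ℕ, p.Prime → p ∣ v j → z < p := fun p hp h => (dv_prime (hv' j) hp h).1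
  have huz : ∀ p : ℕ, p.Prime → p ∣ u j → z < p := fun p hp h =>
    hzy.trans (dv_prime (hu' j) hp h).1
  have h1 : ((s j : ℕ) : ℤ) ∣ f j - f' j := by
    have h := sq_pow_dvd (dv_squarefree (hs' j)) 1 (f j - f' j)
      (fun p hp hpd => by
        rw [pow_one]
        exact dvd_sub (g.fs hp hpd).2.1 (g'.fs hp hpd).2.1)
    rwa [pow_one] at h
  have h2 : ((v j ^ 2 : ℕ) : ℤ) ∣ f j - f' j := by
    have h := sq_pow_dvd (dv_squarefree (hv' j)) 2 (f j - f' j)
      (fun p hp hpd => dvd_sub (g.fv hp hpd).2 (g'.fv hp hpd).2)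
    exact_mod_cast h
  have h4 : ((u j : ℕ) : ℤ) ∣ f j - f' j := dvd_sub (g.hu j) (g'.hu j)
  have h5 : ((s j : ℕ) : ℤ) ∣ t - t' := hdiv _ hsz h1
  have h6 : ((v j ^ 2 : ℕ) : ℤ) ∣ t - t' :=
    hdiv _ (fun p hp h => hvz p hp (hp.dvd_of_dvd_pow h)) h2
  have h7 : ((u j : ℕ) : ℤ) ∣ t - t' := hdiv _ huz h4
  have hcop1 : IsCoprime ((s j : ℕ) : ℤ) ((v j ^ 2 : ℕ) : ℤ) := by
    rw [Nat.isCoprime_iff_coprime]
    apply Nat.coprime_of_dvd
    intro p hp hps hpv
    exact (g.fs hp hps).2.2 (g.fv hp (hp.dvd_of_dvd_pow hpv)).2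
  have hcop2 : IsCoprime ((s j * v j ^ 2 : ℕ) : ℤ) ((u j : ℕ) : ℤ) := by
    rw [Nat.isCoprime_iff_coprime]
    apply Nat.coprime_of_dvd
    intro p hp hps hpu
    have h8 : y < p := (g.fu hu hp hpu).1
    have h9 : p ≤ y := by
      rcases hp.dvd_mul.1 hps with h | h
      · exact (dv_prime (hs' j) hp h).2
      · exact (dv_prime (hv' j) hp (hp.dvd_of_dvd_pow h)).2
    omega
  rw [mj_eq, Nat.cast_mul]
  refine hcop2.mul_dvd ?_ h7
  rw [Nat.cast_mul]
  exact hcop1.mul_dvd h5 h6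

/-- the product over the primes of the modulus -/
lemma prod_pr (hs : s ∈ Tup J z y) (hv : v ∈ Tup J z y)
    (hu : u ∈ Tup J y Y) (g : G2 z y s v u f) :
    ∏ p ∈ (∏ j, mj c0 s v u j).primeFactors.filter (fun p => p ∈ PS z y),
      (p : ℝ) / ((p : ℝ) - Fintype.card J) =
    ∏ j, ((s j * gw 1 (Fintype.card J) (s j)) * (v j * gw 1 (Fintype.card J) (v j))) := by
  have hs' := (mem_Tup'.1 hs).1
  have hv' := (mem_Tup'.1 hv).1
  have key : ∀ j p, p ∈ (s j).primeFactors ∪ (v j).primeFactors →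
      p.Prime ∧ z < p ∧ (p : ℤ) ∣ f j := by
    intro j p hp
    rcases mem_union.1 hp with hp | hp
    · have h1 := Nat.prime_of_mem_primeFactors hp
      have h2 := g.fs h1 (Nat.dvd_of_mem_primeFactors hp)
      exact ⟨h1, (mem_PS.1 h2.1).1.1, h2.2.1⟩
    · have h1 := Nat.prime_of_mem_primeFactors hp
      have h2 := g.fv h1 (Nat.dvd_of_mem_primeFactors hp)
      exact ⟨h1, (mem_PS.1 h2.1).1.1, (dvd_pow_self (p : ℤ) two_ne_zero).trans h2.2⟩
  rw [mj_primes hs hv hu, prod_biUnion]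
  · apply prod_congr rfl
    intro j _
    rw [prod_union, prod_gw (hs' j), prod_gw (hv' j)]
    rw [Finset.disjoint_left]
    intro p h1 h2
    have hp := Nat.prime_of_mem_primeFactors h1
    exact (g.fs hp (Nat.dvd_of_mem_primeFactors h1)).2.2
      (g.fv hp (Nat.dvd_of_mem_primeFactors h2)).2
  · intro j _ l _ hjl
    rw [Function.onFun, Finset.disjoint_left]
    intro p h1 h2
    have h3 := key j p h1
    have h4 := key l p h2
    exact hjl (g.un p h3.1 h3.2.1 j l h3.2.2 h4.2.2)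

lemma un_of (hB : Bg α β z) {t w : ℕ} (htw : t.Coprime w) {p : ℕ} (hp : p.Prime) (hz : z < p)
    {j : J} (hj : (p : ℤ) ∣ fv α β (t : ℤ) (w : ℤ) j) : ¬ p ∣ w := by
  intro hw
  have hw' : (p : ℤ) ∣ (w : ℤ) := Int.natCast_dvd_natCast.2 hw
  unfold fv at hj
  have h1 : (p : ℤ) ∣ α j * (t : ℤ) := (dvd_add_left (hw'.mul_left _)).1 hj
  have hpI : Prime (p : ℤ) := Nat.prime_iff_prime_int.1 hp
  rcases hpI.dvd_or_dvd h1 with h | h
  · exact (hB.2 p hp hz).1 j h
  · have h2 : p ∣ t := Int.natCast_dvd_natCast.1 h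
    have := Nat.dvd_gcd h2 hw
    rw [htw] at this
    exact hp.one_lt.ne' (Nat.dvd_one.1 this)

/-- CNT2 -/
theorem cnt2_of (h : SVR2) (h2 : AVH) : CNT2 := by
  intro J _ _ α β z hB
  obtain ⟨C, K, y0, hC, hK, hSV⟩ := h J z hB.1
  obtain ⟨CA, hCA, hav⟩ := h2 (Fintype.card J) z hB.1
  refine ⟨C * CA, K, y0, mul_nonneg hC hCA, hK, ?_⟩
  intro X y Y hy0 hzy hX s hs v hv u hu hsvu
  have hs' := (mem_Tup'.1 hs).1
  have hv' := (mem_Tup'.1 hv).1
  have hu' := (mem_Tup'.1 hu).1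
  have hz : 2 ≤ z := by have := hB.1; omega
  have hc : Fintype.card J ≤ z := by have := hB.1; omega
  have hlog : 0 ≤ (Real.log y) ^ (Fintype.card J) := pow_nonneg (Real.log_natCast_nonneg y) _
  have hgs : ∀ j, 0 ≤ gw 1 (Fintype.card J) (s j) := fun j => gw_nonneg zero_le_one hc (hs' j)
  have hgv : ∀ j, 0 ≤ gw 1 (Fintype.card J) (v j) := fun j => gw_nonneg zero_le_one hc (hv' j)
  set T := (Icc 1 X ×ˢ Icc 1 X).filter (fun t : ℕ × ℕ => t.1.Coprime t.2 ∧
      S1 z y (fv α β (t.1 : ℤ) (t.2 : ℤ)) = s ∧ S2 z y (fv α β (t.1 : ℤ) (t.2 : ℤ)) = v ∧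
      ∀ j, (u j : ℤ) ∣ fv α β (t.1 : ℤ) (t.2 : ℤ) j) with hT
  have hun : ∀ t w : ℕ, t.Coprime w → ∀ p : ℕ, p.Prime → z < p → ∀ j l,
      (p : ℤ) ∣ fv α β (t : ℤ) (w : ℤ) j → (p : ℤ) ∣ fv α β (t : ℤ) (w : ℤ) l → j = l := by
    intro t w htw p hp hzp j l hj hl
    by_contra hne
    have hw := un_of hB htw hp hzp hj
    have h1 : Res α β j l * (w : ℤ) =
        α j * fv α β (t : ℤ) (w : ℤ) l - α l * fv α β (t : ℤ) (w : ℤ) j := by
      unfold Res fv
      ring
    have h3 : (p : ℤ) ∣ Res α β j l * (w : ℤ) := by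
      rw [h1]
      exact dvd_sub (hl.mul_left _) (hj.mul_left _)
    have hpI : Prime (p : ℤ) := Nat.prime_iff_prime_int.1 hp
    rcases hpI.dvd_or_dvd h3 with h | h
    · exact (hB.2 p hp hzp).2 j l hne h
    · exact hw (Int.natCast_dvd_natCast.1 h)
  have hgood : ∀ t ∈ T, G2 z y s v u (fv α β (t.1 : ℤ) (t.2 : ℤ)) := by
    intro t ht
    rw [hT, mem_filter] at ht
    exact ⟨ht.2.2.1, ht.2.2.2.1, ht.2.2.2.2, hun t.1 t.2 ht.2.1⟩
  rcases T.eq_empty_or_nonempty with hTe | ⟨t0, ht0⟩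
  · rw [hTe, card_empty, Nat.cast_zero]
    apply div_nonneg _ hlog
    have h1 : 0 ≤ ∏ j, gw 1 (Fintype.card J) (s j) := prod_nonneg fun j _ => hgs j
    have h2 : 0 ≤ ∏ j, gw 1 (Fintype.card J) (v j) / v j :=
      prod_nonneg fun j _ => div_nonneg (hgv j) (Nat.cast_nonneg _)
    have h3 : 0 ≤ ∏ j, 1 / (u j : ℝ) := prod_nonneg fun j _ => by positivity
    positivity
  set m := ∏ j, mj c0 s v u j with hm
  have hmj1 : ∀ j, 1 ≤ mj c0 s v u j := by
    intro j
    rw [mj_eq]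
    have h1 := dv_pos (hs' j)
    have h2 := dv_pos (hv' j)
    have h3 := dv_pos (hu' j)
    exact Nat.succ_le_of_lt (by positivity)
  have hm1 : 1 ≤ m := Nat.succ_le_of_lt (prod_pos fun j _ => hmj1 j)
  have hm4 : m ^ 4 ≤ X := by
    refine le_trans ?_ hsvu
    have h1 : m ≤ (∏ j, s j * v j * u j) ^ 2 := by
      rw [← prod_pow]
      apply prod_le_prod'
      intro j _
      rw [mj_eq]
      have h1 := dv_pos (hs' j)
      have h3 := dv_pos (hu' j)
      calc s j * v j ^ 2 * u j ≤ (s j * s j) * v j ^ 2 * (u j * u j) := by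
            apply Nat.mul_le_mul
            · apply Nat.mul_le_mul_right
              nlinarith
            · nlinarith
        _ = (s j * v j * u j) ^ 2 := by ring
    calc m ^ 4 ≤ ((∏ j, s j * v j * u j) ^ 2) ^ 4 := Nat.pow_le_pow_left h1 4
      _ = (∏ j, s j * v j * u j) ^ 8 := by rw [← pow_mul]
  have hsq := hgood t0 ht0
  -- factors
  set g : ℕ → ℝ := fun p => (p : ℝ) / ((p : ℝ) - Fintype.card J) with hg
  have hg1 : ∀ p, z < p → 1 ≤ g p := by
    intro p hp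
    have h1 : ((Fintype.card J : ℕ) : ℝ) < p := by exact_mod_cast lt_of_le_of_lt hc hp
    rw [hg]
    simp only
    rw [le_div_iff₀ (by linarith)]
    have : (0 : ℝ) ≤ ((Fintype.card J : ℕ) : ℝ) := Nat.cast_nonneg _
    linarith
  set Gm : ℝ := ∏ p ∈ m.primeFactors.filter (fun p => p ∈ PS z y), g p with hGm
  have hGm0 : 0 ≤ Gm := prod_nonneg fun p hp =>
    zero_le_one.trans (hg1 p (mem_PS.1 (mem_filter.1 hp).2).1.1)
  have hmul : ∀ w : ℕ, w ≠ 0 → ∏ p ∈ (m * w).primeFactors.filter (fun p => p ∈ PS z y), g p ≤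
      Gm * ∏ p ∈ w.primeFactors.filter (fun p => z < p), g p := by
    intro w hw
    have e1 : (m * w).primeFactors.filter (fun p => p ∈ PS z y) =
        m.primeFactors.filter (fun p => p ∈ PS z y) ∪
          (w.primeFactors.filter (fun p => p ∈ PS z y) \
            m.primeFactors.filter (fun p => p ∈ PS z y)) := by
      rw [union_sdiff_self_eq_union, Nat.primeFactors_mul (by omega) hw, filter_union]
    rw [e1, prod_union disjoint_sdiff]
    apply mul_le_mul_of_nonneg_left _ hGm0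
    have e2 : (w.primeFactors.filter (fun p => p ∈ PS z y) \
        m.primeFactors.filter (fun p => p ∈ PS z y)) ⊆
        w.primeFactors.filter (fun p => z < p) := by
      intro p hp
      rw [mem_sdiff, mem_filter] at hp
      rw [mem_filter]
      exact ⟨hp.1.1, (mem_PS.1 hp.1.2).1.1⟩
    rw [← prod_sdiff e2]
    apply le_mul_of_one_le_left
    · exact prod_nonneg fun p hp => zero_le_one.trans (hg1 p (mem_filter.1 (e2 hp)).2)
    · have h1 : ∀ p ∈ w.primeFactors.filter (fun p => z < p) \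
          (w.primeFactors.filter (fun p => p ∈ PS z y) \
            m.primeFactors.filter (fun p => p ∈ PS z y)), (1 : ℝ) ≤ g p := by
        intro p hp
        exact hg1 p (mem_filter.1 (mem_sdiff.1 hp).1).2
      calc (1 : ℝ) = ∏ p ∈ w.primeFactors.filter (fun p => z < p) \
          (w.primeFactors.filter (fun p => p ∈ PS z y) \
            m.primeFactors.filter (fun p => p ∈ PS z y)), (1 : ℝ) := by simp
        _ ≤ _ := prod_le_prod (fun _ _ => zero_le_one) h1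
  -- bound for a fixed second variable
  have hfib : ∀ w ∈ Icc 1 X, ((T.filter (fun t : ℕ × ℕ => t.2 = w)).card : ℝ) ≤
      C * (X / m) * (Gm * ∏ p ∈ w.primeFactors.filter (fun p => z < p), g p) /
        (Real.log y) ^ (Fintype.card J) := by
    intro w hw
    rw [mem_Icc] at hw
    have hw0 : w ≠ 0 := by omega
    have hcond : ∀ p ∈ PS z y, ¬ p ∣ m * w → (∀ j, ¬ (p : ℤ) ∣ α j) ∧
        ∀ j l, j ≠ l → ¬ (p : ℤ) ∣ Res α (fun j => β j * (w : ℤ)) j l := by
      intro p hp hpm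
      have hpp := (mem_PS.1 hp).2
      have hzp := (mem_PS.1 hp).1.1
      refine ⟨(hB.2 p hpp hzp).1, fun j l hjl hd => ?_⟩
      have h1 : Res α (fun j => β j * (w : ℤ)) j l = Res α β j l * (w : ℤ) := by
        unfold Res
        ring
      rw [h1] at hd
      have hpI : Prime (p : ℤ) := Nat.prime_iff_prime_int.1 hpp
      rcases hpI.dvd_or_dvd hd with h | h
      · exact (hB.2 p hpp hzp).2 j l hjl h
      · exact hpm ((Int.natCast_dvd_natCast.1 h).mul_left _)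
    have hbd : ∀ r : ℕ, (((Icc 1 X).filter (fun t : ℕ => t ≡ r [MOD m] ∧
        ∀ p ∈ PS z y, ¬ p ∣ m * w →
        ∀ j, ¬ (p : ℤ) ∣ ff α (fun j => β j * (w : ℤ)) t j)).card : ℝ) ≤
        C * (X / m) * (Gm * ∏ p ∈ w.primeFactors.filter (fun p => z < p), g p) /
          (Real.log y) ^ (Fintype.card J) := by
      intro r
      refine (hSV X y hy0 hzy hX α (fun j => β j * (w : ℤ)) m (m * w) r hm1
        (dvd_mul_right _ _) (mul_ne_zero (by omega) hw0) hm4 hcond).trans ?_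
      apply div_le_div_of_nonneg_right _ hlog
      apply mul_le_mul_of_nonneg_left (hmul w hw0)
      positivity
    rcases (T.filter (fun t : ℕ × ℕ => t.2 = w)).eq_empty_or_nonempty with he | ⟨r, hr⟩
    · rw [he, card_empty, Nat.cast_zero]
      exact le_trans (Nat.cast_nonneg _) (hbd 0)
    · refine le_trans ?_ (hbd r.1)
      rw [Nat.cast_le]
      apply card_le_card_of_injOn (fun t : ℕ × ℕ => t.1)
      · intro t ht
        have ht' : t ∈ T.filter (fun t : ℕ × ℕ => t.2 = w) := ht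
        rw [mem_filter] at ht' hr
        have g1 := hgood t ht'.1
        have g2 := hgood r hr.1
        have htX : t.1 ∈ Icc 1 X := (mem_product.1 (mem_filter.1 ht'.1).1).1
        simp only [coe_filter, Set.mem_ofPred_eq]
        rw [ht'.2] at g1
        rw [hr.2] at g2
        refine ⟨htX, ?_, ?_⟩
        · have h1 := cong (α := α) (fun p hp hz => (hB.2 p hp hz).1) hzy hs hv hu g1 g2
            (t := (t.1 : ℤ)) (t' := (r.1 : ℤ)) (fun j => by unfold fv; ring)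
          rw [← hm] at h1
          exact ((Nat.modEq_iff_dvd.2 h1)).symm
        · intro p hpP hpm j hpf
          have hp := (mem_PS.1 hpP).2
          apply hpm
          apply Dvd.dvd.mul_right
          rw [hm]
          refine Dvd.dvd.trans ?_ (dvd_prod_of_mem _ (mem_univ j))
          rw [mj_eq]
          have hff : ff α (fun j => β j * (w : ℤ)) (t.1 : ℤ) j = fv α β (t.1 : ℤ) (w : ℤ) j := by
            unfold ff fv
            ring
          rw [hff] at hpf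
          by_cases h2 : (p : ℤ) ^ 2 ∣ fv α β (t.1 : ℤ) (w : ℤ) j
          · have h3 : p ∣ v j := by
              rw [← g1.hv]
              exact (dvd_S2 hp).2 ⟨hpP, h2⟩
            exact (((h3.pow two_ne_zero).mul_left _).mul_right _)
          · have h3 : p ∣ s j := by
              rw [← g1.hs]
              exact (dvd_S1 hp).2 ⟨hpP, hpf, h2⟩
            exact ((h3.mul_right _).mul_right _)
      · intro a ha b hb hab
        have ha' : a ∈ T.filter (fun t : ℕ × ℕ => t.2 = w) := ha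
        have hb' : b ∈ T.filter (fun t : ℕ × ℕ => t.2 = w) := hb
        rw [mem_filter] at ha' hb'
        exact Prod.ext hab (ha'.2.trans hb'.2.symm)
  have hcard : (T.card : ℝ) ≤ ∑ w ∈ Icc 1 X,
      C * (X / m) * (Gm * ∏ p ∈ w.primeFactors.filter (fun p => z < p), g p) /
        (Real.log y) ^ (Fintype.card J) := by
    rw [card_eq_sum_card_fiberwise (f := fun t : ℕ × ℕ => t.2) (t := Icc 1 X)
      (fun t ht => (mem_product.1 (mem_filter.1 ht).1).2)]
    rw [Nat.cast_sum]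
    exact sum_le_sum fun w hw => hfib w hw
  have hsum : ∑ w ∈ Icc 1 X,
      C * (X / m) * (Gm * ∏ p ∈ w.primeFactors.filter (fun p => z < p), g p) /
        (Real.log y) ^ (Fintype.card J) ≤
      C * (X / m) * (Gm * (CA * X)) / (Real.log y) ^ (Fintype.card J) := by
    rw [← sum_div, ← mul_sum, ← mul_sum]
    apply div_le_div_of_nonneg_right _ hlog
    apply mul_le_mul_of_nonneg_left _ (by positivity)
    exact mul_le_mul_of_nonneg_left (hav X) hGm0
  refine hcard.trans (hsum.trans ?_)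
  have hGmeq : Gm = ∏ j, ((s j * gw 1 (Fintype.card J) (s j)) *
      (v j * gw 1 (Fintype.card J) (v j))) := prod_pr hs hv hu hsq
  have hterm : ∀ j, ((s j *
      gw 1 (Fintype.card J) (s j)) * (v j * gw 1 (Fintype.card J) (v j))) /
      ((mj c0 s v u j : ℕ) : ℝ) = gw 1 (Fintype.card J) (s j) *
      (gw 1 (Fintype.card J) (v j) / v j) * (1 / (u j : ℝ)) := by
    intro j
    have h1 : (s j : ℝ) ≠ 0 := Nat.cast_ne_zero.2 (dv_ne_zero (hs' j))
    have h2 : (v j : ℝ) ≠ 0 := Nat.cast_ne_zero.2 (dv_ne_zero (hv' j))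
    have h3 : (u j : ℝ) ≠ 0 := Nat.cast_ne_zero.2 (dv_ne_zero (hu' j))
    rw [mj_eq]
    rw [Nat.cast_mul, Nat.cast_mul, Nat.cast_pow]
    field_simp
  have hprod : (∏ j, ((s j * gw 1 (Fintype.card J) (s j)) *
      (v j * gw 1 (Fintype.card J) (v j)))) /
      (∏ j, ((mj c0 s v u j : ℕ) : ℝ)) = (∏ j, gw 1 (Fintype.card J) (s j)) *
        (∏ j, gw 1 (Fintype.card J) (v j) / v j) * (∏ j, 1 / (u j : ℝ)) := by
    rw [← prod_div_distrib, ← prod_mul_distrib, ← prod_mul_distrib]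
    exact prod_congr rfl fun j _ => hterm j
  apply le_of_eq
  rw [show C * CA * X ^ 2 * (∏ j, gw 1 (Fintype.card J) (s j)) *
        (∏ j, gw 1 (Fintype.card J) (v j) / v j) * (∏ j, 1 / (u j : ℝ)) =
      C * CA * X ^ 2 * ((∏ j, gw 1 (Fintype.card J) (s j)) *
        (∏ j, gw 1 (Fintype.card J) (v j) / v j) * (∏ j, 1 / (u j : ℝ))) by ring, ← hprod,
    hGmeq, hm, Nat.cast_prod]
  ring

end Pool.Agent.W29.RT
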