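import Pool.Agent.W307.RT.Stm

/-!
# Project RT, part LOW4: there are many curves with a subgroup `Z/2 x Z/4`
-/

set_option autoImplicit false

namespace Pool.Agent.W29.RT

open Finset Pool.Agent.W307.RT WeierstrassCurve

lemma nons {A B : ℤ} {x y : ℚ} (h : y ^ 2 = x ^ 3 + A * x + B)
    (h2 : y ≠ 0 ∨ 3 * x ^ 2 + A ≠ 0) : (Sh A B).toAffine.Nonsingular x y := by
  rw [Affine.nonsingular_iff, Affine.equation_iff]
  simp only [Sh]
  refine ⟨by linear_combination h, ?_⟩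
  rcases h2 with h2 | h2
  · right
    intro h3
    apply h2
    linarith
  · left
    intro h3
    apply h2
    linarith

lemma neg_y {A B : ℤ} {x y : ℚ} : (Sh A B).toAffine.negY x y = -y := by
  simp [Affine.negY, Sh]

lemma hasT4 {A B : ℤ} {a b : ℚ} (hA : (A : ℚ) = -27 * (a ^ 4 - a ^ 2 * b ^ 2 + b ^ 4))
    (hB : (B : ℚ) = 27 * ((a ^ 2 + b ^ 2) * (2 * a ^ 2 - b ^ 2) * (a ^ 2 - 2 * b ^ 2)))
    (ha : a ≠ 0) (hb : b ≠ 0) (hab : a + b ≠ 0) (hab' : a - b ≠ 0) : HasT 4 (Sh A B) := by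
  have hy : 27 * a * b * (a + b) ≠ 0 := by positivity
  have hP : (Sh A B).toAffine.Nonsingular (3 * (a ^ 2 + b ^ 2) + 9 * a * b)
      (27 * a * b * (a + b)) := by
    apply nons _ (Or.inl hy)
    rw [hA, hB]; ring
  have hR : (Sh A B).toAffine.Nonsingular (3 * (a ^ 2 + b ^ 2)) 0 := by
    apply nons _ (Or.inr _)
    · rw [hA, hB]; ring
    · rw [hA]
      have : 3 * (3 * (a ^ 2 + b ^ 2)) ^ 2 + -27 * (a ^ 4 - a ^ 2 * b ^ 2 + b ^ 4) =
        81 * a ^ 2 * b ^ 2 := by ring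
      rw [this]; positivity
  have hQ : (Sh A B).toAffine.Nonsingular (3 * b ^ 2 - 6 * a ^ 2) 0 := by
    apply nons _ (Or.inr _)
    · rw [hA, hB]; ring
    · rw [hA]
      have : 3 * (3 * b ^ 2 - 6 * a ^ 2) ^ 2 + -27 * (a ^ 4 - a ^ 2 * b ^ 2 + b ^ 4) =
        81 * a ^ 2 * ((a + b) * (a - b)) := by ring
      rw [this]; positivity
  set P : (Sh A B).toAffine.Point := .some _ _ hP with hPd
  set R : (Sh A B).toAffine.Point := .some _ _ hR with hRd
  set Q : (Sh A B).toAffine.Point := .some _ _ hQ with hQd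
  have hRR : R + R = 0 := by
    rw [hRd]
    apply Affine.Point.add_self_of_Y_eq
    rw [neg_y]; simp
  have hQQ : Q + Q = 0 := by
    rw [hQd]
    apply Affine.Point.add_self_of_Y_eq
    rw [neg_y]; simp
  have hPP : P + P = R := by
    have hne : 27 * a * b * (a + b) ≠ (Sh A B).toAffine.negY (3 * (a ^ 2 + b ^ 2) + 9 * a * b)
        (27 * a * b * (a + b)) := by
      rw [neg_y]
      intro h
      apply hy
      linarith
    have hsl : (Sh A B).toAffine.slope (3 * (a ^ 2 + b ^ 2) + 9 * a * b)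
        (3 * (a ^ 2 + b ^ 2) + 9 * a * b) (27 * a * b * (a + b)) (27 * a * b * (a + b)) =
        3 * (a + b) := by
      rw [Affine.slope_of_Y_ne rfl hne, neg_y]
      simp only [Sh]
      rw [hA, div_eq_iff (by intro h; apply hy; linarith)]
      ring
    rw [hPd, Affine.Point.add_self_of_Y_ne hne, hRd, Affine.Point.some.injEq, hsl]
    constructor
    · simp only [Affine.addX, Sh]; ring
    · simp only [Affine.addY, Affine.negAddY, Affine.negY, Affine.addX, Sh]; ring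
  have hR0 : R ≠ 0 := Affine.Point.some_ne_zero hR
  have hQ0 : Q ≠ 0 := Affine.Point.some_ne_zero hQ
  have hRQ : R ≠ Q := by
    rw [hRd, hQd, Ne, Affine.Point.some.injEq]
    rintro ⟨h, -⟩
    have : 9 * a ^ 2 = 0 := by linarith
    have h3 : a ^ 2 = 0 := by linarith
    exact ha (pow_eq_zero_iff (by norm_num) |>.1 h3)
  have h2P : 2 • P = R := by rw [two_nsmul, hPP]
  have h4P : 4 • P = 0 := by
    have : (4 : ℕ) • P = 2 • (2 • P) := by rw [← mul_nsmul]
    rw [this, h2P, two_nsmul, hRR]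
  have hoP : addOrderOf P = 4 := by
    have := addOrderOf_eq_prime_pow (x := P) (p := 2) (n := 1) (by simp [h2P, hR0])
      h4P
    simpa using this
  have hoQ : addOrderOf Q = 2 := by
    apply addOrderOf_eq_prime
    · rw [two_nsmul, hQQ]
    · exact hQ0
  refine ⟨P, Q, hoP, hoQ, ?_⟩
  intro hmem
  obtain ⟨k, hk⟩ := AddSubgroup.mem_zmultiples_iff.1 hmem
  have h4 : ((addOrderOf P : ℕ) : ℤ) ∣ 2 * k := by
    rw [addOrderOf_dvd_iff_zsmul_eq_zero, mul_zsmul, hk, two_zsmul, hQQ]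
  rw [hoP] at h4
  obtain ⟨j, hj⟩ : ∃ j, k = 2 * j := by
    obtain ⟨l, hl⟩ := h4
    exact ⟨l, by push_cast at hl; linarith⟩
  have hkj : k • P = j • R := by
    rw [hj, mul_comm, mul_zsmul, two_zsmul, hPP]
  rcases Int.even_or_odd j with ⟨i, hi⟩ | ⟨i, hi⟩
  · apply hQ0
    rw [← hk, hkj, hi, ← two_mul, mul_comm, mul_zsmul, two_zsmul, hRR, zsmul_zero]
  · apply hRQ
    rw [← hk, hkj, hi, add_zsmul, one_zsmul, mul_comm, mul_zsmul, two_zsmul, hRR, zsmul_zero,
      zero_add]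

/-- the coefficients -/
def cf (t : ℕ × ℕ) : ℤ × ℤ :=
  (-27 * ((t.1 : ℤ) ^ 4 - (t.1 : ℤ) ^ 2 * (t.2 : ℤ) ^ 2 + (t.2 : ℤ) ^ 4),
    27 * (((t.1 : ℤ) ^ 2 + (t.2 : ℤ) ^ 2) * (2 * (t.1 : ℤ) ^ 2 - (t.2 : ℤ) ^ 2) *
      ((t.1 : ℤ) ^ 2 - 2 * (t.2 : ℤ) ^ 2)))

lemma minim {a b : ℤ} (h : IsCoprime a b) {p : ℕ} (hp : p.Prime)
    (h1 : (p : ℤ) ^ 4 ∣ -27 * (a ^ 4 - a ^ 2 * b ^ 2 + b ^ 4))
    (h2 : (p : ℤ) ^ 6 ∣ 27 * ((a ^ 2 + b ^ 2) * (2 * a ^ 2 - b ^ 2) * (a ^ 2 - 2 * b ^ 2))) :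
    False := by
  have hpI : Prime (p : ℤ) := Nat.prime_iff_prime_int.1 hp
  have hnot : ¬ ((p : ℤ) ∣ a ∧ (p : ℤ) ∣ b) := by
    rintro ⟨ha, hb⟩
    exact hpI.not_isUnit (h.isUnit_of_dvd' ha hb)
  by_cases h3 : p = 3
  · subst h3
    have e1 : (3 : ℤ) ∣ a ^ 4 - a ^ 2 * b ^ 2 + b ^ 4 := by
      obtain ⟨c, hc⟩ := h1
      push_cast at hc
      exact ⟨-c, by linarith⟩
    have hp3 : Prime (3 : ℤ) := by exact_mod_cast hpI
    have e2 : (3 : ℤ) ∣ (a ^ 2 + b ^ 2) ^ 2 := by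
      have : (a ^ 2 + b ^ 2) ^ 2 = (a ^ 4 - a ^ 2 * b ^ 2 + b ^ 4) + 3 * (a ^ 2 * b ^ 2) := by ring
      rw [this]
      exact dvd_add e1 (dvd_mul_right _ _)
    have e3 : (3 : ℤ) ∣ a ^ 2 + b ^ 2 := hp3.dvd_of_dvd_pow e2
    apply hnot
    push_cast
    have ha := Int.emod_emod_of_dvd a (dvd_refl (3 : ℤ))
    have h0 : (a ^ 2 + b ^ 2) % 3 = 0 := Int.emod_eq_zero_of_dvd e3
    have ha3 : a % 3 = 0 ∨ a % 3 = 1 ∨ a % 3 = 2 := by omega
    have hb3 : b % 3 = 0 ∨ b % 3 = 1 ∨ b % 3 = 2 := by omega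
    have key : a % 3 = 0 ∧ b % 3 = 0 := by
      rcases ha3 with h | h | h <;> rcases hb3 with h' | h' | h' <;>
        simp [pow_two, Int.add_emod, Int.mul_emod, h, h'] at h0 ⊢
    exact ⟨Int.dvd_of_emod_eq_zero key.1, Int.dvd_of_emod_eq_zero key.2⟩
  · have hp27 : ¬ (p : ℤ) ∣ 27 := by
      intro hd
      have : p ∣ 3 ^ 3 := by exact_mod_cast hd
      have := hp.dvd_of_dvd_pow this
      exact h3 ((Nat.prime_dvd_prime_iff_eq hp Nat.prime_three).1 this)
    have hp3 : ¬ (p : ℤ) ∣ 3 := fun hd => hp27 (hd.trans (by norm_num))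
    have e1 : (p : ℤ) ∣ a ^ 4 - a ^ 2 * b ^ 2 + b ^ 4 := by
      have : (p : ℤ) ∣ -27 * (a ^ 4 - a ^ 2 * b ^ 2 + b ^ 4) :=
        (dvd_pow_self _ (by norm_num)).trans h1
      rcases hpI.dvd_or_dvd this with h | h
      · exact absurd ((dvd_neg.1 h)) hp27
      · exact h
    have e2 : (p : ℤ) ∣ (a ^ 2 + b ^ 2) * (2 * a ^ 2 - b ^ 2) * (a ^ 2 - 2 * b ^ 2) := by
      have : (p : ℤ) ∣ 27 * ((a ^ 2 + b ^ 2) * (2 * a ^ 2 - b ^ 2) * (a ^ 2 - 2 * b ^ 2)) :=
        (dvd_pow_self _ (by norm_num)).trans h2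
      rcases hpI.dvd_or_dvd this with h | h
      · exact absurd h hp27
      · exact h
    apply hnot
    rcases hpI.dvd_or_dvd e2 with e3 | e3
    · rcases hpI.dvd_or_dvd e3 with e4 | e4
      · have e5 : (p : ℤ) ∣ 3 * (a ^ 2 * b ^ 2) := by
          have : 3 * (a ^ 2 * b ^ 2) =
              (a ^ 2 + b ^ 2) * (a ^ 2 + b ^ 2) - (a ^ 4 - a ^ 2 * b ^ 2 + b ^ 4) := by ring
          rw [this]
          exact dvd_sub (e4.mul_right _) e1
        rcases hpI.dvd_or_dvd e5 with h | h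
        · exact absurd h hp3
        rcases hpI.dvd_or_dvd h with h | h
        · have h' := hpI.dvd_of_dvd_pow h
          have : (p : ℤ) ∣ b ^ 2 := (dvd_add_right h).1 e4
          exact ⟨h', hpI.dvd_of_dvd_pow this⟩
        · have h' := hpI.dvd_of_dvd_pow h
          have : (p : ℤ) ∣ a ^ 2 := (dvd_add_left h).1 e4
          exact ⟨hpI.dvd_of_dvd_pow this, h'⟩
      · have e5 : (p : ℤ) ∣ 3 * a ^ 4 := by
          have : 3 * a ^ 4 = (a ^ 4 - a ^ 2 * b ^ 2 + b ^ 4) +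
              (2 * a ^ 2 - b ^ 2) * (a ^ 2 + b ^ 2) := by ring
          rw [this]
          exact dvd_add e1 (e4.mul_right _)
        rcases hpI.dvd_or_dvd e5 with h | h
        · exact absurd h hp3
        have h' := hpI.dvd_of_dvd_pow h
        have h2' : (p : ℤ) ∣ 2 * a ^ 2 := (dvd_pow h' (by norm_num)).mul_left _
        have : (p : ℤ) ∣ b ^ 2 := (dvd_sub_right h2').1 e4
        exact ⟨h', hpI.dvd_of_dvd_pow this⟩
    · have e5 : (p : ℤ) ∣ 3 * b ^ 4 := by
        have : 3 * b ^ 4 = (a ^ 4 - a ^ 2 * b ^ 2 + b ^ 4) -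
            (a ^ 2 - 2 * b ^ 2) * (a ^ 2 + b ^ 2) := by ring
        rw [this]
        exact dvd_sub e1 (e3.mul_right _)
      rcases hpI.dvd_or_dvd e5 with h | h
      · exact absurd h hp3
      have h' := hpI.dvd_of_dvd_pow h
      have h2' : (p : ℤ) ∣ 2 * b ^ 2 := (dvd_pow h' (by norm_num)).mul_left _
      have : (p : ℤ) ∣ a ^ 2 := (dvd_sub_left h2').1 e3
      exact ⟨hpI.dvd_of_dvd_pow this, h'⟩

/-- the largest root determines: comparison of roots of two cubics -/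
lemma top_root {r1 r2 r3 s1 s2 s3 : ℤ} (h : ∀ x : ℤ, (x - r1) * (x - r2) * (x - r3) =
    (x - s1) * (x - s2) * (x - s3)) (h2 : r2 < r1) (h3 : r3 < r1) (g2 : s2 < s1) (g3 : s3 < s1) :
    r1 = s1 := by
  rcases lt_trichotomy r1 s1 with h1 | h1 | h1
  · have := h s1
    simp only [sub_self, zero_mul, mul_eq_zero] at this
    omega
  · exact h1
  · have := h r1
    simp only [sub_self, zero_mul] at this
    have := this.symm
    simp only [mul_eq_zero] at this
    omega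

lemma cf_inj {a b a' b' : ℤ} (hb : 1 ≤ b) (hab : b < a) (hb' : 1 ≤ b') (hab' : b' < a')
    (h1 : -27 * (a ^ 4 - a ^ 2 * b ^ 2 + b ^ 4) =
      -27 * (a' ^ 4 - a' ^ 2 * b' ^ 2 + b' ^ 4))
    (h2 : 27 * ((a ^ 2 + b ^ 2) * (2 * a ^ 2 - b ^ 2) * (a ^ 2 - 2 * b ^ 2)) =
      27 * ((a' ^ 2 + b' ^ 2) * (2 * a' ^ 2 - b' ^ 2) * (a' ^ 2 - 2 * b' ^ 2))) :
    a = a' ∧ b = b' := by
  have ha0 : 0 < a ^ 2 := pow_pos (by linarith) 2
  have hb0 : 0 < b ^ 2 := pow_pos (by linarith) 2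
  have ha0' : 0 < a' ^ 2 := pow_pos (by linarith) 2
  have hb0' : 0 < b' ^ 2 := pow_pos (by linarith) 2
  have hlt : b ^ 2 < a ^ 2 := by nlinarith
  have hlt' : b' ^ 2 < a' ^ 2 := by nlinarith
  have H : ∀ x : ℤ, (x - 3 * (a ^ 2 + b ^ 2)) * (x - (3 * b ^ 2 - 6 * a ^ 2)) *
      (x - (3 * a ^ 2 - 6 * b ^ 2)) = (x - 3 * (a' ^ 2 + b' ^ 2)) *
      (x - (3 * b' ^ 2 - 6 * a' ^ 2)) * (x - (3 * a' ^ 2 - 6 * b' ^ 2)) := by
    intro x
    linear_combination x * h1 + h2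
  have t1 := top_root H (by linarith) (by linarith) (by linarith) (by linarith)
  have H2 : ∀ x : ℤ, (x - (-(3 * b ^ 2 - 6 * a ^ 2))) * (x - (-(3 * (a ^ 2 + b ^ 2)))) *
      (x - (-(3 * a ^ 2 - 6 * b ^ 2))) = (x - (-(3 * b' ^ 2 - 6 * a' ^ 2))) *
      (x - (-(3 * (a' ^ 2 + b' ^ 2)))) * (x - (-(3 * a' ^ 2 - 6 * b' ^ 2))) := by
    intro x
    have := H (-x)
    linear_combination (-1) * this
  have t2 := top_root H2 (by linarith) (by linarith) (by linarith) (by linarith)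
  have s1 : a ^ 2 = a' ^ 2 := by linarith
  have s2 : b ^ 2 = b' ^ 2 := by linarith
  exact ⟨(pow_left_inj₀ (by linarith) (by linarith) two_ne_zero).1 s1,
    (pow_left_inj₀ (by linarith) (by linarith) two_ne_zero).1 s2⟩

lemma abs_le_cube (x : ℤ) : |x| ≤ |x| ^ 3 := by
  rcases eq_or_ne x 0 with rfl | h
  · simp
  · have : 1 ≤ |x| := Int.one_le_abs h
    nlinarith [sq_nonneg (|x|), mul_le_mul this this zero_le_one (abs_nonneg x)]

lemma abs_le_sq (x : ℤ) : |x| ≤ x ^ 2 := by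
  rcases eq_or_ne x 0 with rfl | h
  · simp
  · have : 1 ≤ |x| := Int.one_le_abs h
    rw [← sq_abs]
    nlinarith

theorem mem_cv {T H a b : ℕ} (hb : 1 ≤ b) (hab : b < a) (haT : a ≤ T) (hc : a.Coprime b)
    (hH : 2000000 * T ^ 12 ≤ H) : cf (a, b) ∈ Cv 4 H := by
  have hcI : IsCoprime (a : ℤ) (b : ℤ) := Nat.isCoprime_iff_coprime.2 hc
  have hbI : (1 : ℤ) ≤ b := by exact_mod_cast hb
  have habI : (b : ℤ) < a := by exact_mod_cast hab
  have haTI : (a : ℤ) ≤ T := by exact_mod_cast haT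
  have hHI : 2000000 * (T : ℤ) ^ 12 ≤ H := by exact_mod_cast hH
  have hlt : (b : ℤ) ^ 2 < (a : ℤ) ^ 2 := by nlinarith
  have haT2 : (a : ℤ) ^ 2 ≤ (T : ℤ) ^ 2 := by
    apply pow_le_pow_left₀ (by positivity) haTI
  set x : ℤ := (a : ℤ) ^ 2 with hx
  set y : ℤ := (b : ℤ) ^ 2 with hy
  set S : ℤ := (T : ℤ) ^ 2 with hS
  have hy0 : 0 < y := by positivity
  have hx0 : 0 < x := by linarith
  have hcf1 : (cf (a, b)).1 = -27 * (x ^ 2 - x * y + y ^ 2) := by
    simp only [cf, hx, hy]; ring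
  have hcf2 : (cf (a, b)).2 = 27 * ((x + y) * (2 * x - y) * (x - 2 * y)) := by
    simp only [cf, hx, hy]
  have hS12 : (T : ℤ) ^ 12 = S ^ 6 := by simp only [hS]; ring
  rw [hS12] at hHI
  have hS0 : 0 < S := by linarith
  have hA : |(cf (a, b)).1| ≤ 27 * S ^ 2 := by
    rw [hcf1, abs_le]
    constructor
    · nlinarith
    · nlinarith
  have hB : |(cf (a, b)).2| ≤ 108 * S ^ 3 := by
    rw [hcf2, abs_mul, abs_mul, abs_mul]
    have e1 : |x + y| ≤ 2 * S := by rw [abs_le]; constructor <;> linarith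
    have e2 : |2 * x - y| ≤ 2 * S := by rw [abs_le]; constructor <;> linarith
    have e3 : |x - 2 * y| ≤ S := by rw [abs_le]; constructor <;> linarith
    calc |(27 : ℤ)| * (|x + y| * |2 * x - y| * |x - 2 * y|)
        ≤ 27 * ((2 * S) * (2 * S) * S) := by
          rw [show |(27 : ℤ)| = 27 from by norm_num]
          gcongr
      _ = 108 * S ^ 3 := by ring
  have hA3 : 4 * |(cf (a, b)).1| ^ 3 ≤ H := by
    calc 4 * |(cf (a, b)).1| ^ 3 ≤ 4 * (27 * S ^ 2) ^ 3 := by gcongr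
      _ = 78732 * S ^ 6 := by ring
      _ ≤ H := by
        have : 0 ≤ S ^ 6 := by positivity
        linarith
  have hB2 : 27 * (cf (a, b)).2 ^ 2 ≤ H := by
    calc 27 * (cf (a, b)).2 ^ 2 = 27 * |(cf (a, b)).2| ^ 2 := by rw [sq_abs]
      _ ≤ 27 * (108 * S ^ 3) ^ 2 := by gcongr
      _ = 314928 * S ^ 6 := by ring
      _ ≤ H := by
        have : 0 ≤ S ^ 6 := by positivity
        linarith
  unfold Cv
  simp only [mem_filter, mem_product, mem_Icc]
  have a1 := abs_le_cube (cf (a, b)).1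
  have a2 := abs_le_sq (cf (a, b)).2
  have a3 := neg_abs_le (cf (a, b)).1
  have a4 := le_abs_self (cf (a, b)).1
  have a5 := neg_abs_le (cf (a, b)).2
  have a6 := le_abs_self (cf (a, b)).2
  have a7 : 0 ≤ |(cf (a, b)).1| ^ 3 := by positivity
  have a8 : 0 ≤ (cf (a, b)).2 ^ 2 := by positivity
  refine ⟨⟨⟨by linarith, by linarith⟩, ⟨by linarith, by linarith⟩⟩, ?_, hA3, hB2, ?_, ?_⟩
  · rw [hcf1, hcf2]
    have : 4 * (-27 * (x ^ 2 - x * y + y ^ 2)) ^ 3 +
        27 * (27 * ((x + y) * (2 * x - y) * (x - 2 * y))) ^ 2 =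
        -(3 ^ 12 * (x ^ 2 * y ^ 2 * (x - y) ^ 2)) := by ring
    rw [this]
    have h3 : x - y ≠ 0 := by intro h; linarith
    have : 0 < x ^ 2 * y ^ 2 * (x - y) ^ 2 := by positivity
    intro h
    linarith
  · intro p hp hh
    exact minim hcI hp hh.1 hh.2
  · apply hasT4 (a := (a : ℚ)) (b := (b : ℚ))
    · simp only [cf]; push_cast; ring
    · simp only [cf]; push_cast; ring
    · have : 0 < a := by omega
      positivity
    · positivity
    · positivity
    · have : (b : ℚ) < a := by exact_mod_cast hab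
      intro h
      linarith

/- copied from Pool.Agent.Helper477.Density -/
theorem totient_sum (x : ℕ) : x ^ 2 ≤ 12 * ∑ q ∈ Finset.Icc 1 x, q.totient := by
  have hIcc : Finset.Icc 1 x = Finset.Ioc 0 x := by
    ext; simp only [Finset.mem_Icc, Finset.mem_Ioc]; omega
  have h1 : ∑ q ∈ Finset.Icc 1 x, q = ∑ d ∈ Finset.Icc 1 x, d.totient * (x / d) := by
    calc ∑ q ∈ Finset.Icc 1 x, q = ∑ q ∈ Finset.Icc 1 x, ∑ d ∈ Nat.divisors q, d.totient := by
          refine Finset.sum_congr rfl fun q _ => ?_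
          rw [Nat.sum_totient]
      _ = ∑ q ∈ Finset.Icc 1 x, ∑ d ∈ Finset.Icc 1 x, if d ∣ q then d.totient else 0 := by
          refine Finset.sum_congr rfl fun q hq => ?_
          rw [← Finset.sum_filter]
          refine Finset.sum_congr ?_ fun _ _ => rfl
          ext d
          rw [Finset.mem_Icc] at hq
          rw [Nat.mem_divisors, Finset.mem_filter, Finset.mem_Icc]
          constructor
          · intro h
            exact ⟨⟨Nat.pos_of_dvd_of_pos h.1 (by omega), (Nat.le_of_dvd (by omega) h.1).trans hq.2⟩, h.1⟩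
          · intro h
            exact ⟨h.2, by omega⟩
      _ = ∑ d ∈ Finset.Icc 1 x, ∑ q ∈ Finset.Icc 1 x, if d ∣ q then d.totient else 0 :=
          Finset.sum_comm
      _ = ∑ d ∈ Finset.Icc 1 x, d.totient * (x / d) := by
          refine Finset.sum_congr rfl fun d _ => ?_
          rw [← Finset.sum_filter, Finset.sum_const, hIcc, Nat.Ioc_filter_dvd_card_eq_div,
            smul_eq_mul, mul_comm]
  have h2 : (∑ q ∈ Finset.Icc 1 x, q) * 2 = x * (x + 1) := by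
    have h3 := Finset.sum_range_id_mul_two (x + 1)
    have h4 : ∑ q ∈ Finset.range (x + 1), q = ∑ q ∈ Finset.Icc 1 x, q := by
      rw [Finset.range_eq_Ico, Finset.sum_eq_sum_Ico_succ_bot (by omega)]
      simp only [zero_add]
      refine Finset.sum_congr ?_ fun _ _ => rfl
      ext; simp only [Finset.mem_Icc, Finset.mem_Ico]; omega
    rw [h4] at h3
    rw [h3]
    simp [mul_comm]
  have h5 : ∑ d ∈ Finset.Icc 1 x, d.totient * (x / d) ≤
      ∑ d ∈ Finset.Icc 1 x, ((if 4 * d ≤ x then x else 0) + 3 * d.totient) := by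
    refine Finset.sum_le_sum fun d hd => ?_
    rw [Finset.mem_Icc] at hd
    by_cases h : 4 * d ≤ x
    · rw [if_pos h]
      calc d.totient * (x / d) ≤ d * (x / d) := Nat.mul_le_mul_right _ (Nat.totient_le d)
        _ ≤ x := Nat.mul_div_le x d
        _ ≤ x + 3 * d.totient := Nat.le_add_right _ _
    · rw [if_neg h, zero_add, mul_comm]
      apply Nat.mul_le_mul_right
      have : x / d < 4 := by
        rw [Nat.div_lt_iff_lt_mul (by omega)]
        omega
      omega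
  have h6 : ∑ d ∈ Finset.Icc 1 x, (if 4 * d ≤ x then x else 0) ≤ (x / 4) * x := by
    rw [← Finset.sum_filter, Finset.sum_const, smul_eq_mul]
    apply Nat.mul_le_mul_right
    have : (Finset.Icc 1 x).filter (fun d => 4 * d ≤ x) ⊆ Finset.Icc 1 (x / 4) := by
      intro d hd
      rw [Finset.mem_filter, Finset.mem_Icc] at hd
      rw [Finset.mem_Icc]
      omega
    have h7 := Finset.card_le_card this
    rw [Nat.card_Icc] at h7
    omega
  rw [Finset.sum_add_distrib, ← Finset.mul_sum] at h5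
  have h8 : 4 * ((x / 4) * x) ≤ x * x := by
    calc 4 * ((x / 4) * x) = (4 * (x / 4)) * x := by ring
      _ ≤ x * x := Nat.mul_le_mul_right _ (Nat.mul_div_le x 4)
  nlinarith

/-- the pairs -/
def SS (T : ℕ) : Finset (Σ _ : ℕ, ℕ) :=
  (Icc 2 T).sigma (fun a => (range a).filter (fun b => a.Coprime b))

lemma card_SS (T : ℕ) (hT : 5 ≤ T) : T ^ 2 ≤ 24 * (SS T).card := by
  have h1 := totient_sum T
  have h2 : ∑ q ∈ Icc 1 T, q.totient = 1 + (SS T).card := by
    unfold SS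
    rw [card_sigma]
    have : Icc 1 T = insert 1 (Icc 2 T) := by
      ext i; simp only [mem_Icc, mem_insert]; omega
    rw [this, sum_insert (by simp)]
    simp only [Nat.totient_one]
    congr 1
  rw [h2] at h1
  nlinarith

theorem low4 : LOW4 := by
  refine ⟨1 / 24, 2000000, 5, by norm_num, fun T H hT hH => ?_⟩
  have h1 : (SS T).card ≤ (Cv 4 H).card := by
    apply card_le_card_of_injOn (fun t => cf (t.1, t.2))
    · intro t ht
      have ht' : t ∈ SS T := ht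
      unfold SS at ht'
      rw [mem_sigma, mem_Icc, mem_filter, mem_range] at ht'
      obtain ⟨⟨k1, k2⟩, k3, k4⟩ := ht'
      have hb : 1 ≤ t.2 := by
        rcases Nat.eq_zero_or_pos t.2 with h | h
        · rw [h, Nat.coprime_zero_right] at k4; omega
        · exact h
      exact mem_cv hb k3 k2 k4 hH
    · intro t ht t' ht' h
      have ht1 : t ∈ SS T := ht
      have ht1' : t' ∈ SS T := ht'
      unfold SS at ht1 ht1'
      rw [mem_sigma, mem_Icc, mem_filter, mem_range] at ht1 ht1'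
      obtain ⟨⟨k1, k2⟩, k3, k4⟩ := ht1
      obtain ⟨⟨k1', k2'⟩, k3', k4'⟩ := ht1'
      have hb : 1 ≤ t.2 := by
        rcases Nat.eq_zero_or_pos t.2 with h | h
        · rw [h, Nat.coprime_zero_right] at k4; omega
        · exact h
      have hb' : 1 ≤ t'.2 := by
        rcases Nat.eq_zero_or_pos t'.2 with h | h
        · rw [h, Nat.coprime_zero_right] at k4'; omega
        · exact h
      have h' : cf (t.1, t.2) = cf (t'.1, t'.2) := h
      simp only [cf, Prod.mk.injEq] at h'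
      obtain ⟨e1, e2⟩ := cf_inj (by exact_mod_cast hb) (by exact_mod_cast k3)
        (by exact_mod_cast hb') (by exact_mod_cast k3') h'.1 h'.2
      have e1' : t.1 = t'.1 := by exact_mod_cast e1
      have e2' : t.2 = t'.2 := by exact_mod_cast e2
      exact Sigma.ext e1' (heq_of_eq e2')
  have h2 := card_SS T hT
  have h3 : (T : ℝ) ^ 2 ≤ 24 * ((SS T).card : ℝ) := by exact_mod_cast h2
  have h4 : ((SS T).card : ℝ) ≤ ((Cv 4 H).card : ℝ) := by exact_mod_cast h1
  linarith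

end Pool.Agent.W29.RT
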